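import Pool.Agent.H45.Lib.S8.H370R2.Defs

/-!
TEAM Q (helper385): zeros of Dirichlet L-functions in the conductor aspect.
Definitions shared by all modules.
-/

open Complex Filter Topology Set MeasureTheory

namespace H385

/-! ### large sieve part -/

/-- the Farey constant `6/π²` -/
noncomputable def c0 : ℝ := 6 / Real.pi ^ 2

/-- Poisson (Cauchy) kernel of width `1/V`, total mass `1` -/
noncomputable def PK (V x : ℝ) : ℝ := (V / Real.pi) / (1 + V ^ 2 * x ^ 2)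

/-- `e(x) = exp(2π i x)` -/
noncomputable def ee (x : ℝ) : ℂ := cexp (2 * Real.pi * I * x)

/-- exponential sum -/
noncomputable def SS (N : ℕ) (a : ℕ → ℂ) (θ : ℝ) : ℂ := ∑ n ∈ Finset.Icc 1 N, a n * ee (n * θ)

/-- the Gauss sum of a Dirichlet character mod `q` (primitive or not) -/
noncomputable def tau (q : ℕ) (χ : DirichletCharacter ℂ q) : ℂ :=
  ∑ b ∈ Finset.range q, χ (b : ZMod q) * ee ((b : ℝ) / q)

/-- the weight `|τ(χ)|² / (q² φ(q))` of a character `χ` mod `q` -/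
noncomputable def ww (q : ℕ) (χ : DirichletCharacter ℂ q) : ℝ :=
  ‖tau q χ‖ ^ 2 / ((q : ℝ) ^ 2 * Nat.totient q)

/-- weighted sum over all Dirichlet characters `χ` mod `q`, `X < q ≤ Y` -/
noncomputable def fam (X Y : ℕ) (f : (q : ℕ) → DirichletCharacter ℂ q → ℝ) : ℝ :=
  ∑ q ∈ Finset.Ioc X Y, ∑ᶠ χ : DirichletCharacter ℂ q, ww q χ * f q χ

/-- the Dirichlet L-function of a character mod `q` (junk for `q = 0`) -/
noncomputable def LF (q : ℕ) (χ : DirichletCharacter ℂ q) : ℂ → ℂ :=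
  if h : q = 0 then 0 else
    haveI : NeZero q := ⟨h⟩
    DirichletCharacter.LFunction χ

/-- coefficients of `-L'/L` of the primitive character inducing `χ` -/
noncomputable def aa (q : ℕ) (χ : DirichletCharacter ℂ q) (n : ℕ) : ℂ :=
  χ.primitiveCharacter (n : ZMod χ.conductor) * (ArithmeticFunction.vonMangoldt n : ℂ)

/-! ### window -/

/-- cosine window on `[-1/2,1/2]` with parameter `0 < γ < π` and total mass `1` -/
noncomputable def gw (γ x : ℝ) : ℝ := γ * Real.cos (γ * x) / (2 * Real.sin (γ / 2))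

/-- its Fourier-Laplace transform -/
noncomputable def kapw (γ : ℝ) (z : ℂ) : ℂ :=
  ∫ x in (-1 / 2 : ℝ)..(1 / 2), (gw γ x : ℂ) * cexp (I * z * x)

/-- the self-convolution of the window -/
noncomputable def Rw (γ α : ℝ) : ℝ :=
  if |α| ≤ 1 then
    (γ / (2 * Real.sin (γ / 2))) ^ 2 *
      ((1 - |α|) * Real.cos (γ * |α|) + Real.sin (γ * (1 - |α|)) / γ) / 2
  else 0

/-- the kernel at scale `Λ` with Gaussian damping -/
noncomputable def phiw (γ Λ : ℝ) (z : ℂ) : ℂ := kapw γ (Λ * z) * cexp (-z ^ 2 / 8)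

/-! ### L-function part -/

/-- analytic input about a degree one L-function in the upper half plane, uniform in the
conductor `Q` : all constants are bounded by `A`. `a` is the coefficient sequence of `-F'/F`. -/
structure GoodU (A Q : ℝ) (F : ℂ → ℂ) (a : ℕ → ℂ) : Prop where
  an : ∀ s : ℂ, 0 < s.im → AnalyticAt ℂ F s
  growth : ∀ s : ℂ, (1 / 16 : ℝ) ≤ s.re → s.re ≤ 4 → 1 ≤ s.im → ‖F s‖ ≤ A * (Q * s.im) ^ A
  lower : ∀ t : ℝ, 1 ≤ t → A⁻¹ ≤ ‖F (⟨2, t⟩ : ℂ)‖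
  nzr : ∀ s : ℂ, 1 ≤ s.re → 1 ≤ s.im → F s ≠ 0
  nzl : ∀ s : ℂ, s.re ≤ 0 → 1 ≤ s.im → F s ≠ 0
  symm : ∀ s : ℂ, 0 < s.re → s.re < 1 → 1 ≤ s.im →
    analyticOrderAt F (1 - (starRingEnd ℂ) s) = analyticOrderAt F s
  ha : ∀ n, ‖a n‖ ≤ ArithmeticFunction.vonMangoldt n
  ld : ∀ s : ℂ, 1 < s.re → 1 ≤ s.im → deriv F s / F s = - ∑' n : ℕ, a n * (n : ℂ) ^ (-s)
  left : ∀ s : ℂ, -1 / 2 ≤ s.re → s.re ≤ 1 / 2 → 1 ≤ s.im → F s ≠ 0 →
    ‖deriv F s / F s + Real.log (Q * s.im) +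
      (starRingEnd ℂ) (deriv F (1 - (starRingEnd ℂ) s) / F (1 - (starRingEnd ℂ) s))‖ ≤ A

/-- the zero parameter `z` with `s = 1/2 + i z` -/
noncomputable def zz (s : ℂ) : ℂ := -I * (s - 1 / 2)

/-- Gaussian zero sum `∑ m e^{iuz} e^{-(z-m)²}` -/
noncomputable def A1 (F : ℂ → ℂ) (V1 V2 u m : ℝ) : ℂ :=
  ∑ᶠ s ∈ H370.zset F V1 V2, (H370.mult F s : ℂ) * (cexp (I * u * zz s) * cexp (-(zz s - m) ^ 2))

/-- prime side belonging to `A1` -/
noncomputable def PP1 (a : ℕ → ℂ) (u m : ℝ) : ℂ :=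
  ∑' n : ℕ, a n * (Real.sqrt n : ℂ)⁻¹ * cexp (I * m * (u - Real.log n)) *
    Real.exp (-(u - Real.log n) ^ 2 / 4)

/-- smooth analytic cut-off, close to `1` for `Re z` in the middle of `(T,2T)` -/
noncomputable def cc (T : ℝ) (z : ℂ) : ℂ :=
  (1 / Real.sqrt (2 * Real.pi) : ℝ) * ∫ τ in T..(2 * T), cexp (-(z - τ) ^ 2 / 2)

/-- cut-off Gaussian zero sum -/
noncomputable def BB (F : ℂ → ℂ) (V1 V2 T u t : ℝ) : ℂ :=
  ∑ᶠ s ∈ H370.zset F V1 V2, (H370.mult F s : ℂ) * cc T (zz s) *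
    (cexp (I * u * zz s) * cexp (-(zz s - t) ^ 2 / 2))

/-- the coefficient functions of the cut-off explicit formula -/
noncomputable def bt (T u t ℓ : ℝ) : ℂ :=
  (1 / (2 * Real.sqrt Real.pi) * (1 / Real.sqrt (2 * Real.pi)) * Real.exp (-(u - ℓ) ^ 2 / 4) : ℝ) *
    ∫ τ in T..(2 * T), Real.exp (-(t - τ) ^ 2 / 4) * cexp (I * ((t + τ) / 2) * (u - ℓ))

/-- the weight function `w(t)`, between `0` and `1` -/
noncomputable def wt (T t : ℝ) : ℝ :=
  1 / (2 * Real.sqrt Real.pi) * ∫ τ in T..(2 * T), Real.exp (-(t - τ) ^ 2 / 4)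

end H385
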